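import Pool.Agent.H87.SN.Targets

/-!
# Straight necks of stationary harmonic maps: the weighted Hessian estimate
-/

set_option autoImplicit false

open MeasureTheory Metric Set Filter Topology
open scoped ContDiff RealInnerProductSpace

namespace Pool.Agent.H39.SN

open Pool.Agent.H87.SN

/-- the gradient vector of a linear functional -/
noncomputable def vec {n : ℕ} (l : E n →L[ℝ] ℝ) : E n := WithLp.toLp 2 (fun i => l (bv i))

theorem vec_add {n : ℕ} (l l' : E n →L[ℝ] ℝ) : vec (l + l') = vec l + vec l' := by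
  ext i
  simp [vec]

theorem vec_smul {n : ℕ} (c : ℝ) (l : E n →L[ℝ] ℝ) : vec (c • l) = c • vec l := by
  ext i
  simp [vec]

theorem norm_vec_sq {n : ℕ} (l : E n →L[ℝ] ℝ) : ‖vec l‖ ^ 2 = nsq l := by
  rw [EuclideanSpace.norm_sq_eq]
  rfl

theorem vec_eq_sum {n : ℕ} (l : E n →L[ℝ] ℝ) : vec l = ∑ i, l (bv i) • (bv i : E n) := by
  ext j
  rw [WithLp.ofLp_sum, Finset.sum_apply]
  simp [vec, bv, PiLp.single_apply]

theorem apply_vec {n : ℕ} (l L : E n →L[ℝ] ℝ) : L (vec l) = ∑ i, l (bv i) * L (bv i) := by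
  rw [vec_eq_sum, map_sum]
  refine Finset.sum_congr rfl fun i _ => ?_
  rw [map_smul, smul_eq_mul]

theorem nsq_nonneg {n : ℕ} {F : Type*} [NormedAddCommGroup F] [NormedSpace ℝ F]
    (L : E n →L[ℝ] F) : 0 ≤ nsq L := Finset.sum_nonneg fun i _ => by positivity

theorem rho_sq {d : ℕ} (x : E (d + 2)) : rho x ^ 2 = x 0 ^ 2 + x 1 ^ 2 := by
  unfold rho
  rw [Real.sq_sqrt (by positivity)]

/-- product with a continuous function of compact support -/
theorem cont_mul {n : ℕ} {U : Set (E n)} (hU : IsOpen U) {p g : E n → ℝ} (hp : Continuous p)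
    (hs : tsupport p ⊆ U) (hg : ContinuousOn g U) : Continuous fun x => p x * g x := by
  rw [continuous_iff_continuousAt]
  intro x
  by_cases hx : x ∈ U
  · exact hp.continuousAt.mul (hg.continuousAt (hU.mem_nhds hx))
  · have h1 : x ∉ tsupport p := fun h => hx (hs h)
    have h2 : (fun y => p y * g y) =ᶠ[𝓝 x] fun _ => 0 := by
      filter_upwards [notMem_tsupport_iff_eventuallyEq.1 h1] with y hy
      rw [hy]
      simp
    exact continuousAt_const.congr h2.symm

theorem int_mul {n : ℕ} {U : Set (E n)} (hU : IsOpen U) {p g : E n → ℝ} (hp : Continuous p)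
    (hc : HasCompactSupport p) (hs : tsupport p ⊆ U) (hg : ContinuousOn g U) :
    Integrable fun x => p x * g x :=
  (cont_mul hU hp hs hg).integrable_of_hasCompactSupport (hc.mul_right (f' := g))

/-- the derivative of the square of the distance -/
theorem hasFDerivAt_q {d : ℕ} (x : E (d + 2)) :
    HasFDerivAt (fun y : E (d + 2) => rho y ^ 2)
      ((2 * x 0) • (EuclideanSpace.proj 0 : E (d + 2) →L[ℝ] ℝ) +
        (2 * x 1) • (EuclideanSpace.proj 1 : E (d + 2) →L[ℝ] ℝ)) x := by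
  have h0 : HasFDerivAt (fun y : E (d + 2) => y 0)
      (EuclideanSpace.proj 0 : E (d + 2) →L[ℝ] ℝ) x :=
    (EuclideanSpace.proj 0 : E (d + 2) →L[ℝ] ℝ).hasFDerivAt
  have h1 : HasFDerivAt (fun y : E (d + 2) => y 1)
      (EuclideanSpace.proj 1 : E (d + 2) →L[ℝ] ℝ) x :=
    (EuclideanSpace.proj 1 : E (d + 2) →L[ℝ] ℝ).hasFDerivAt
  have h2 := (h0.pow 2).add (h1.pow 2)
  have e : (fun y : E (d + 2) => rho y ^ 2) = fun y : E (d + 2) => y 0 ^ 2 + y 1 ^ 2 := by
    funext y
    exact rho_sq y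
  rw [e]
  refine h2.congr_fderiv ?_
  ext v
  simp

theorem contDiff_q {d : ℕ} : ContDiff ℝ 1 (fun y : E (d + 2) => rho y ^ 2) := by
  have e : (fun y : E (d + 2) => rho y ^ 2) =
      fun y : E (d + 2) => (EuclideanSpace.proj 0 : E (d + 2) →L[ℝ] ℝ) y ^ 2 +
        (EuclideanSpace.proj 1 : E (d + 2) →L[ℝ] ℝ) y ^ 2 := by
    funext y
    exact rho_sq y
  rw [e]
  exact ((ContinuousLinearMap.contDiff _).pow 2).add ((ContinuousLinearMap.contDiff _).pow 2)

theorem norm_vec_q {d : ℕ} (x : E (d + 2)) :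
    ‖vec (fderiv ℝ (fun y : E (d + 2) => rho y ^ 2) x)‖ = 2 * rho x := by
  have h0 : 0 ≤ rho x := Real.sqrt_nonneg _
  rw [(hasFDerivAt_q x).fderiv]
  have h1 : ‖vec ((2 * x 0) • (EuclideanSpace.proj 0 : E (d + 2) →L[ℝ] ℝ) +
        (2 * x 1) • (EuclideanSpace.proj 1 : E (d + 2) →L[ℝ] ℝ))‖ ^ 2 = (2 * rho x) ^ 2 := by
    rw [norm_vec_sq, mul_pow, rho_sq]
    unfold nsq
    rw [Fin.sum_univ_succ, Fin.sum_univ_succ]
    have h2 : ∀ i : Fin d, (bv i.succ.succ : E (d + 2)) 0 = 0 := by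
      intro i
      simp [bv, Fin.ext_iff]
    have h3 : ∀ i : Fin d, (bv i.succ.succ : E (d + 2)) 1 = 0 := by
      intro i
      simp [bv, Fin.ext_iff]
    have h4 : (bv 0 : E (d + 2)) 0 = 1 := by simp [bv]
    have h5 : (bv 0 : E (d + 2)) 1 = 0 := by simp [bv]
    have h6 : (bv (Fin.succ 0) : E (d + 2)) 0 = 0 := by simp [bv]
    have h7 : (bv (Fin.succ 0) : E (d + 2)) 1 = 1 := by simp [bv]
    have key : ∀ v : E (d + 2), ((2 * x 0) • (EuclideanSpace.proj 0 : E (d + 2) →L[ℝ] ℝ) +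
        (2 * x 1) • (EuclideanSpace.proj 1 : E (d + 2) →L[ℝ] ℝ)) v =
        2 * x 0 * v 0 + 2 * x 1 * v 1 := fun v => rfl
    simp only [key, h2, h3, h4, h5, h6, h7, Real.norm_eq_abs, sq_abs, mul_zero, add_zero,
      zero_add, mul_one]
    rw [Finset.sum_eq_zero (fun i _ => by norm_num)]
    ring
  exact (pow_left_inj₀ (norm_nonneg _) (by positivity) two_ne_zero).1 h1

/-- the pointwise estimate of the mixed term -/
theorem young {X c ρ w χ n h : ℝ} (hw : 0 < w) (hn : 0 ≤ n) (hh : 0 ≤ h)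
    (hX : X ≤ |χ| * ρ * w * (4 * |χ| + 2 * ρ * c)) :
    2 * X * Real.sqrt n * Real.sqrt h ≤
      χ ^ 2 * ρ ^ 2 * w * h + (32 * χ ^ 2 + 8 * ρ ^ 2 * c ^ 2) * w * n := by
  obtain ⟨s, hs0, hs⟩ : ∃ s : ℝ, 0 ≤ s ∧ s ^ 2 = w := ⟨Real.sqrt w, Real.sqrt_nonneg _,
    Real.sq_sqrt hw.le⟩
  obtain ⟨a, ha0, ha⟩ : ∃ a : ℝ, 0 ≤ a ∧ a ^ 2 = n := ⟨Real.sqrt n, Real.sqrt_nonneg _,
    Real.sq_sqrt hn⟩
  obtain ⟨b, hb0, hb⟩ : ∃ b : ℝ, 0 ≤ b ∧ b ^ 2 = h := ⟨Real.sqrt h, Real.sqrt_nonneg _,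
    Real.sq_sqrt hh⟩
  have ea : Real.sqrt n = a := by rw [← ha, Real.sqrt_sq ha0]
  have eb : Real.sqrt h = b := by rw [← hb, Real.sqrt_sq hb0]
  rw [ea, eb, ← ha, ← hb]
  have hχ : 0 ≤ |χ| := abs_nonneg χ
  have hχ2 : χ ^ 2 = |χ| ^ 2 := (sq_abs χ).symm
  rw [hχ2]
  set t := |χ| with ht
  have h1 : 2 * X * a * b ≤ 2 * (t * ρ * w * (4 * t + 2 * ρ * c)) * a * b := by
    have := mul_nonneg ha0 hb0
    nlinarith
  refine h1.trans ?_
  rw [← hs]
  have h2 : 2 * (t * ρ * s ^ 2 * (4 * t + 2 * ρ * c)) * a * b ≤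
      (t * ρ * s * b) ^ 2 + (s * (4 * t + 2 * ρ * c) * a) ^ 2 := by
    nlinarith [sq_nonneg (t * ρ * s * b - s * (4 * t + 2 * ρ * c) * a)]
  refine h2.trans ?_
  have h3 : (s * (4 * t + 2 * ρ * c) * a) ^ 2 ≤
      (32 * t ^ 2 + 8 * ρ ^ 2 * c ^ 2) * s ^ 2 * a ^ 2 := by
    have h4 : (4 * t + 2 * ρ * c) ^ 2 ≤ 32 * t ^ 2 + 8 * ρ ^ 2 * c ^ 2 := by
      nlinarith [sq_nonneg (4 * t - 2 * ρ * c)]
    have h5 : 0 ≤ s ^ 2 * a ^ 2 := by positivity
    nlinarith
  nlinarith

theorem pf_HES (hLA3 : T_LA3) (hGRN : T_GRN) (hBO1 : T_BO1) : T_HES := by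
  intro d m U u w χ hU hρ hu hO hlap hw hw0 hgw hχ hχc hχs
  obtain ⟨hF, hF2⟩ := hBO1 (d + 2) m U u hU hu hO
  set F : E (d + 2) → ℝ := fun x => nsq (fderiv ℝ u x) with hFdef
  set P : E (d + 2) → ℝ := fun x => χ x ^ 2 * (rho x ^ 2 * w x) with hPdef
  have hρ0 : ∀ x : E (d + 2), 0 ≤ rho x := fun x => Real.sqrt_nonneg _
  have hχ0 : ∀ x, x ∉ U → χ =ᶠ[𝓝 x] fun _ => 0 := fun x hx =>
    notMem_tsupport_iff_eventuallyEq.1 fun h => hx (hχs h)
  have hχz : ∀ x, x ∉ U → χ x = 0 := fun x hx => (hχ0 x hx).self_of_nhds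
  -- continuity on U
  have cw : ContinuousOn w U := hw.continuousOn
  have cq : Continuous fun x : E (d + 2) => rho x ^ 2 := contDiff_q.continuous
  have hu1 : ContDiffOn ℝ ∞ (fderiv ℝ u) U := hu.fderiv_of_isOpen hU (by simp)
  have hu2 : ContDiffOn ℝ ∞ (fderiv ℝ (fderiv ℝ u)) U := hu1.fderiv_of_isOpen hU (by simp)
  have cF : ContinuousOn F U := hF.continuousOn
  have hF1 : ContDiffOn ℝ ∞ (fderiv ℝ F) U := hF.fderiv_of_isOpen hU (by simp)
  have hF3 : ContDiffOn ℝ ∞ (fderiv ℝ (fderiv ℝ F)) U := hF1.fderiv_of_isOpen hU (by simp)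
  have clF : ContinuousOn (lap F) U := by
    unfold lap
    refine continuousOn_finsetSum _ fun i _ => ?_
    exact (hF3.continuousOn.clm_apply continuousOn_const).clm_apply continuousOn_const
  have ch : ContinuousOn (hsq u) U := by
    unfold hsq
    refine continuousOn_finsetSum _ fun i _ => continuousOn_finsetSum _ fun j _ => ?_
    exact (((hu2.continuousOn.clm_apply continuousOn_const).clm_apply
      continuousOn_const).norm).pow 2
  have hP1 : ContDiff ℝ 1 P := by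
    rw [contDiff_iff_contDiffAt]
    intro x
    by_cases hx : x ∈ U
    · exact (hχ.contDiffAt.pow 2).mul (contDiff_q.contDiffAt.mul
        (hw.contDiffAt (hU.mem_nhds hx)))
    · have h2 : P =ᶠ[𝓝 x] fun _ => 0 := by
        filter_upwards [hχ0 x hx] with y hy
        rw [hPdef]
        simp only [hy]
        ring
      exact contDiffAt_const.congr_of_eventuallyEq h2
  have hχ2c : HasCompactSupport fun x => χ x ^ 2 := by
    have e : (fun x => χ x ^ 2) = fun x => χ x * χ x := by funext x; ring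
    rw [e]
    exact hχc.mul_right
  have hχ2s : tsupport (fun x => χ x ^ 2) ⊆ tsupport χ := by
    have e : (fun x => χ x ^ 2) = fun x => χ x * χ x := by funext x; ring
    rw [e]
    exact tsupport_mul_subset_left
  have hPc : HasCompactSupport P := hχ2c.mul_right
  have hPs : tsupport P ⊆ tsupport χ := by
    refine Subset.trans ?_ hχ2s
    exact tsupport_mul_subset_left
  have hg : ∫ x, P x * lap F x =
      - ∫ x, ∑ i : Fin (d + 2), fderiv ℝ P x (bv i) * fderiv ℝ F x (bv i) :=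
    hGRN (d + 2) U P F hU hP1 hPc (hPs.trans hχs) (hF.of_le (by exact WithTop.coe_le_coe.2 le_top))
  -- integrability
  have cχ2 : Continuous fun x => χ x ^ 2 := hχ.continuous.pow 2
  have iA : Integrable fun x => χ x ^ 2 * (rho x ^ 2 * w x * hsq u x) :=
    int_mul hU cχ2 hχ2c (hχ2s.trans hχs) ((cq.continuousOn.mul cw).mul ch)
  have iG1 : Integrable fun x => P x * lap F x :=
    int_mul hU hP1.continuous hPc (hPs.trans hχs) clF
  have hDP : ∀ i : Fin (d + 2), tsupport (fun x => fderiv ℝ P x (bv i)) ⊆ tsupport P := by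
    intro i
    refine Subset.trans ?_ (tsupport_fderiv_subset (𝕜 := ℝ) (f := P))
    refine closure_mono ?_
    intro x hx
    rw [Function.mem_support] at hx ⊢
    intro h0
    apply hx
    rw [h0]
    rfl
  have iG2 : Integrable fun x =>
      ∑ i : Fin (d + 2), fderiv ℝ P x (bv i) * fderiv ℝ F x (bv i) := by
    refine integrable_finsetSum _ fun i _ => ?_
    refine int_mul hU ?_ ?_ ((hDP i).trans (hPs.trans hχs)) ?_
    · exact (hP1.continuous_fderiv (by norm_num)).clm_apply continuous_const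
    · exact hPc.of_isClosed_subset (isClosed_tsupport _) (hDP i)
    · exact hF1.continuousOn.clm_apply continuousOn_const
  have cgχ : Continuous (gsq χ) := by
    unfold gsq nsq
    refine continuous_finsetSum _ fun i _ => ?_
    exact (((hχ.continuous_fderiv (by norm_num)).clm_apply continuous_const).norm).pow 2
  have hDχ0 : ∀ x, χ =ᶠ[𝓝 x] (fun _ => 0) → fderiv ℝ χ x = 0 := by
    intro x hx
    rw [hx.fderiv_eq]
    exact fderiv_const_apply _
  have hgχs : tsupport (gsq χ) ⊆ tsupport χ := by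
    refine closure_minimal ?_ (isClosed_tsupport _)
    intro x hx
    by_contra hne
    apply hx
    have h1 := hDχ0 x (notMem_tsupport_iff_eventuallyEq.1 hne)
    unfold gsq
    rw [h1]
    unfold nsq
    simp
  have iB : Integrable fun x =>
      (χ x ^ 2 + rho x ^ 2 * gsq χ x) * w x * nsq (fderiv ℝ u x) := by
    have e : (fun x => (χ x ^ 2 + rho x ^ 2 * gsq χ x) * w x * nsq (fderiv ℝ u x)) =
        fun x => χ x ^ 2 * (w x * F x) + gsq χ x * (rho x ^ 2 * w x * F x) := by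
      funext x
      rw [hFdef]
      ring
    rw [e]
    exact (int_mul hU cχ2 hχ2c (hχ2s.trans hχs) (cw.mul cF)).add
      (int_mul hU cgχ (hχc.of_isClosed_subset (isClosed_tsupport _) hgχs) (hgχs.trans hχs)
        ((cq.continuousOn.mul cw).mul cF))
  -- the pointwise inequality
  have key : ∀ x, χ x ^ 2 * (rho x ^ 2 * w x * hsq u x) ≤
      (P x * lap F x + ∑ i : Fin (d + 2), fderiv ℝ P x (bv i) * fderiv ℝ F x (bv i)) +
        40 * ((χ x ^ 2 + rho x ^ 2 * gsq χ x) * w x * nsq (fderiv ℝ u x)) := by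
    intro x
    by_cases hx : x ∈ U
    · obtain ⟨hl, hb⟩ := hF2 x hx
      have hw1 : DifferentiableAt ℝ w x :=
        (hw.contDiffAt (hU.mem_nhds hx)).differentiableAt (by norm_num)
      have hχ1 : DifferentiableAt ℝ χ x := hχ.contDiffAt.differentiableAt (by norm_num)
      have hq1 : DifferentiableAt ℝ (fun y : E (d + 2) => rho y ^ 2) x :=
        (hasFDerivAt_q x).differentiableAt
      have hdP : fderiv ℝ P x = (χ x ^ 2 * rho x ^ 2) • fderiv ℝ w x +
          (χ x ^ 2 * w x) • fderiv ℝ (fun y : E (d + 2) => rho y ^ 2) x +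
          (2 * χ x * (rho x ^ 2 * w x)) • fderiv ℝ χ x := by
        have h1 := (hχ1.hasFDerivAt.pow 2).mul (hq1.hasFDerivAt.mul hw1.hasFDerivAt)
        refine HasFDerivAt.fderiv (h1.congr_fderiv ?_)
        ext v
        simp
        ring
      have h2 : rho x * ‖vec (fderiv ℝ w x)‖ ≤ 2 * w x := by
        have h3 := hgw x hx
        unfold gsq at h3
        rw [← norm_vec_sq] at h3
        have h4 := hw0 x hx
        have h5 : 0 ≤ rho x * ‖vec (fderiv ℝ w x)‖ := mul_nonneg (hρ0 x) (norm_nonneg _)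
        by_contra hne
        push Not at hne
        nlinarith
      have hX : ‖vec (fderiv ℝ P x)‖ ≤
          |χ x| * rho x * w x * (4 * |χ x| + 2 * rho x * ‖vec (fderiv ℝ χ x)‖) := by
        rw [hdP, vec_add, vec_add, vec_smul, vec_smul, vec_smul]
        refine (norm_add₃_le).trans ?_
        rw [norm_smul, norm_smul, norm_smul, norm_vec_q, Real.norm_eq_abs, Real.norm_eq_abs,
          Real.norm_eq_abs]
        have h4 := hw0 x hx
        have h5 := hρ0 x
        have e1 : |χ x ^ 2 * rho x ^ 2| = |χ x| ^ 2 * rho x ^ 2 := by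
          rw [abs_mul, abs_pow, abs_pow, abs_of_nonneg h5]
        have e2 : |χ x ^ 2 * w x| = |χ x| ^ 2 * w x := by
          rw [abs_mul, abs_pow, abs_of_pos h4]
        have e3 : |2 * χ x * (rho x ^ 2 * w x)| = 2 * |χ x| * (rho x ^ 2 * w x) := by
          rw [abs_mul, abs_mul, abs_mul, abs_pow, abs_of_pos h4, abs_of_nonneg h5, abs_two]
        rw [e1, e2, e3]
        have h6 : |χ x| ^ 2 * rho x ^ 2 * ‖vec (fderiv ℝ w x)‖ ≤
            |χ x| ^ 2 * rho x * (2 * w x) := by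
          have h7 : 0 ≤ |χ x| ^ 2 * rho x := by positivity
          nlinarith
        nlinarith
      have hs : |∑ i : Fin (d + 2), fderiv ℝ P x (bv i) * fderiv ℝ F x (bv i)| ≤
          2 * ‖vec (fderiv ℝ P x)‖ * Real.sqrt (nsq (fderiv ℝ u x)) * Real.sqrt (hsq u x) := by
        rw [← apply_vec]
        exact hb _
      have hn0 : 0 ≤ nsq (fderiv ℝ u x) := nsq_nonneg _
      have hh0 : 0 ≤ hsq u x :=
        Finset.sum_nonneg fun i _ => Finset.sum_nonneg fun j _ => by positivity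
      have hy := young (hw0 x hx) hn0 hh0 hX
      rw [norm_vec_sq] at hy
      have h8 := hlap x hx
      have h9 := (abs_le.1 (hs.trans hy)).1
      have h10 : P x * lap F x = 2 * (χ x ^ 2 * rho x ^ 2 * w x * hsq u x) -
          2 * (χ x ^ 2 * w x * (‖lap u x‖ ^ 2 * rho x ^ 2)) := by
        have h11 : lap F x = 2 * (hsq u x - ‖lap u x‖ ^ 2) := hl
        rw [h11, hPdef]
        ring
      have h12 : χ x ^ 2 * w x * (‖lap u x‖ ^ 2 * rho x ^ 2) ≤
          χ x ^ 2 * w x * (1 / 8 * nsq (fderiv ℝ u x)) := by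
        have h4 := hw0 x hx
        exact mul_le_mul_of_nonneg_left h8 (by positivity)
      have h13 : 0 ≤ rho x ^ 2 * nsq (fderiv ℝ χ x) * w x * nsq (fderiv ℝ u x) := by
        have h4 := hw0 x hx
        have := nsq_nonneg (fderiv ℝ χ x)
        positivity
      have h14 : 0 ≤ χ x ^ 2 * w x * nsq (fderiv ℝ u x) := by
        have h4 := hw0 x hx
        positivity
      rw [h10]
      unfold gsq
      nlinarith
    · have h1 : χ x = 0 := hχz x hx
      have h2 : P =ᶠ[𝓝 x] fun _ => 0 := by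
        filter_upwards [hχ0 x hx] with y hy
        rw [hPdef]
        simp only [hy]
        ring
      have h3 : fderiv ℝ P x = 0 := by
        rw [h2.fderiv_eq]
        exact fderiv_const_apply _
      have h4 : gsq χ x = 0 := by
        unfold gsq
        rw [hDχ0 x (hχ0 x hx)]
        unfold nsq
        simp
      have h5 : P x = 0 := h2.self_of_nhds
      rw [h1, h3, h4, h5]
      simp
  have iG : Integrable fun x =>
      P x * lap F x + ∑ i : Fin (d + 2), fderiv ℝ P x (bv i) * fderiv ℝ F x (bv i) := iG1.add iG2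
  have h1 : ∫ x, χ x ^ 2 * (rho x ^ 2 * w x * hsq u x) ≤
      ∫ x, ((P x * lap F x + ∑ i : Fin (d + 2), fderiv ℝ P x (bv i) * fderiv ℝ F x (bv i)) +
        40 * ((χ x ^ 2 + rho x ^ 2 * gsq χ x) * w x * nsq (fderiv ℝ u x))) :=
    integral_mono iA (iG.add (iB.const_mul 40)) key
  have h2 : ∫ x, ((P x * lap F x + ∑ i : Fin (d + 2), fderiv ℝ P x (bv i) * fderiv ℝ F x (bv i)) +
        40 * ((χ x ^ 2 + rho x ^ 2 * gsq χ x) * w x * nsq (fderiv ℝ u x))) =
      40 * ∫ x, (χ x ^ 2 + rho x ^ 2 * gsq χ x) * w x * nsq (fderiv ℝ u x) := by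
    rw [integral_add iG (iB.const_mul 40), integral_add iG1 iG2, hg,
      integral_const_mul]
    ring
  rw [h2] at h1
  refine le_trans (le_of_eq ?_) h1
  congr 1
  funext x
  ring

end Pool.Agent.H39.SN
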